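import Pool.Agent.TH804.HM7

/-!
# The `L¹` mean-value lower bound for products and for multiplicative coefficients

Q1 asks for `C (|a_1| + ∑_{k ≥ 2} |a_k| / (√k log k)) ≤ M(f)` for all Dirichlet polynomials `f`.  Here the inequality is
proved, with one absolute constant, for all `f = g h ∏_{n ∈ P} Q_n(n^{-2πit})`, where `P` is a finite set of integers
`n ≥ 2`, the `Q_n` are arbitrary polynomials and `g`, `h` are Dirichlet polynomials with `|g| = |h|` on the line (for
instance `g = h`) (1), in particular for all multiplicative sequences `(a_k)` of finite support (2).  The weights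
`1 / (√k log k)` are best possible: for each `ω(k) → ∞` the inequality with the weights `ω(k) / (√k log k)` fails for
multiplicative sequences (3).

Proof.  Each linear factor `α + β n^{-2πit}` is a product `G H` of two absolutely convergent Dirichlet series with
`|G| = |H|` (square roots and a Blaschke factor), so `f = G H` with `|G| = |H|`, and `M(f) = ∑ |G_k|² = ∑ |H_k|²`.  The
coefficients of `f` are `∑_{mn = k} G_m H_n`, and a Hilbert type inequality for `1 / (√(mn) log (mn))` gives the bound.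
-/

set_option autoImplicit false

open Finset Filter

namespace Pool.Agent.Results.MP_ca4620_an.ProductsOfPolynomials

/-- `f(t) = ∑_{k ≤ N} a_k k^{-2πit}` -/
noncomputable def D (N : ℕ) (a : ℕ → ℂ) (t : ℝ) : ℂ :=
  ∑ k ∈ Icc 1 N, a k / ((k : ℂ) ^ (2 * (Real.pi : ℂ) * Complex.I * (t : ℂ)))

/-- `M(f) = L`: the mean value of `|f|` exists and is `L` -/
def HasMean (N : ℕ) (a : ℕ → ℂ) (L : ℝ) : Prop :=
  Tendsto (fun T : ℝ => (1 / T) * ∫ t in (-T / 2)..(T / 2), ‖D N a t‖) atTop (nhds L)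

/-- `|a_1| + ∑_{2 ≤ k ≤ N} |a_k| / (√k log k)` -/
noncomputable def weighted (N : ℕ) (a : ℕ → ℂ) : ℝ :=
  ‖a 1‖ + ∑ k ∈ Icc 2 N, ‖a k‖ / (Real.sqrt k * Real.log k)

/-- `a` is multiplicative and `a_k = 0` for `k > N` -/
def Multiplicative (N : ℕ) (a : ℕ → ℂ) : Prop :=
  a 1 = 1 ∧ (∀ m n : ℕ, 1 ≤ m → 1 ≤ n → m.Coprime n → a (m * n) = a m * a n) ∧ ∀ k, N < k → a k = 0

open Pool.Agent.TH804.HM in
theorem result :
    (∃ C : ℝ, 0 < C ∧
      -- (1)
      (∀ (N M : ℕ) (a b c : ℕ → ℂ) (P : Finset ℕ) (Q : ℕ → Polynomial ℂ), 1 ≤ N → (∀ n ∈ P, 2 ≤ n) →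
        (∀ t : ℝ, ‖D M b t‖ = ‖D M c t‖) →
        (∀ t : ℝ, D N a t = D M b t * D M c t *
          ∏ n ∈ P, (Q n).eval (((n : ℂ) ^ (2 * (Real.pi : ℂ) * Complex.I * (t : ℂ)))⁻¹)) →
        ∃ L : ℝ, HasMean N a L ∧ C * weighted N a ≤ L) ∧
      -- (2)
      (∀ (N : ℕ) (a : ℕ → ℂ), 1 ≤ N → Multiplicative N a → ∃ L : ℝ, HasMean N a L ∧ C * weighted N a ≤ L)) ∧
    -- (3)
    (∀ ω : ℕ → ℝ, (∀ k, 0 ≤ ω k) → Tendsto ω atTop atTop → ∀ c : ℝ, 0 < c →
      ∃ (N : ℕ) (a : ℕ → ℂ), 1 ≤ N ∧ Multiplicative N a ∧ ∃ L : ℝ, HasMean N a L ∧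
        L < c * ∑ k ∈ Icc 2 N, ω k * ‖a k‖ / (Real.sqrt k * Real.log k)) := by
  obtain ⟨C, hC, hgood⟩ := good_bound
  have key : ∀ (N : ℕ) (a : ℕ → ℂ), 1 ≤ N → Good (tr N a) → ∃ L : ℝ, HasMean N a L ∧ C * weighted N a ≤ L := by
    intro N a hN h
    obtain ⟨L, hL, hb⟩ := hgood _ h
    refine ⟨L, ?_, ?_⟩
    · have : ∀ t, LS (tr N a) t = D N a t := fun t => LS_tr N a t
      simp_rw [this] at hL
      exact hL
    · have h1 := hb N
      unfold weighted
      have e1 : tr N a 1 = a 1 := by rw [tr_apply, if_pos (by rw [mem_Icc]; omega)]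
      have e2 : ∀ k ∈ Icc 2 N, ‖tr N a k‖ / (Real.sqrt k * Real.log k) = ‖a k‖ / (Real.sqrt k * Real.log k) := by
        intro k hk
        rw [mem_Icc] at hk
        rw [tr_apply, if_pos (by rw [mem_Icc]; omega)]
      rw [e1, sum_congr rfl e2] at h1
      exact h1
  refine ⟨⟨C, hC, ?_, ?_⟩, ?_⟩
  · intro N M a b c P Q hN hP hbc h
    refine key N a hN (good_of_product (M := M) (b := b) (c := c) (P := P) (Q := Q) hP (fun t => ?_) fun t => ?_)
    · rw [LS_tr, LS_tr]
      exact hbc t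
    · rw [LS_tr, LS_tr, LS_tr]
      exact h t
  · intro N a hN ha
    refine key N a hN (good_mult (N := N) ?_ fun n hn => ?_)
    · rw [ArithmeticFunction.IsMultiplicative.iff_ne_zero]
      refine ⟨?_, fun {m n} hm hn hmn => ?_⟩
      · rw [tr_apply, if_pos (by rw [mem_Icc]; omega)]
        exact ha.1
      · have e : ∀ k, k ≠ 0 → tr N a k = a k := by
          intro k hk
          rw [tr_apply]
          split_ifs with h
          · rfl
          · rw [mem_Icc] at h
            exact (ha.2.2 k (by omega)).symm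
        rw [e _ (mul_ne_zero hm hn), e _ hm, e _ hn]
        exact ha.2.1 m n (by omega) (by omega) hmn
    · rw [tr_apply, if_neg]
      rw [mem_Icc]
      omega
  · intro ω hω0 hω c hc
    obtain ⟨f, N, hf, hN, hfN, L, hL, hlt⟩ := optimal ω hω0 hω hc
    have hf' : tr N (fun n => f n) = f := by
      ext n
      rw [tr_apply]
      split_ifs with h
      · rfl
      · rw [mem_Icc] at h
        rcases Nat.eq_zero_or_pos n with h0 | h0
        · rw [h0]; simp
        · exact (hfN n (by omega)).symm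
    refine ⟨N, fun n => f n, hN, ⟨hf.map_one, fun m n _ _ hmn => hf.map_mul_of_coprime hmn, fun k hk => hfN k hk⟩, L, ?_, hlt⟩
    have : ∀ t, LS f t = D N (fun n => f n) t := fun t => by
      rw [← hf', LS_tr]
      rw [hf']
      rfl
    simp_rw [this] at hL
    exact hL

end Pool.Agent.Results.MP_ca4620_an.ProductsOfPolynomials
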